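import Mathlib
import Pool.Agent.PG50.Defs2
import Pool.Agent.PG50.AS2_26
import Pool.Agent.PG50.PS34

/-!
# MP_28a32f_nt: long runs of `n + j` with `π (n + j)` not prime

There is `c > 0` such that for all large `X` at least `c X / (log log X) ^ 3` of the `n ≤ X` have
the following two properties: `π (n + j) = π n` for all `j ≤ c log X / (log log X) ^ 3`, and
`π (n + j)` is not prime for all `0 ≤ j ≤ c (log X) ^ 2 / (log log X) ^ 3`.
-/

set_option autoImplicit false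

namespace Pool.Agent.Results.MP_28a32f_nt.LongRuns

theorem result : ∃ c : ℝ, 0 < c ∧ ∀ᶠ X : ℕ in Filter.atTop,
    c * X / Real.log (Real.log X) ^ 3 ≤
      ({n : ℕ | 1 ≤ n ∧ n ≤ X ∧
        (∀ j : ℕ, (j : ℝ) ≤ c * Real.log X / Real.log (Real.log X) ^ 3 →
          Nat.primeCounting (n + j) = Nat.primeCounting n) ∧
        ∀ j : ℕ, (j : ℝ) ≤ c * Real.log X ^ 2 / Real.log (Real.log X) ^ 3 →
          ¬ (Nat.primeCounting (n + j)).Prime}.ncard : ℝ) := by
  obtain ⟨c, hc, h⟩ := Pool.Agent.PG50.AS26.as2_26 Pool.Agent.PG50.PS34.ps34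
  refine ⟨c, hc, ?_⟩
  filter_upwards [h] with X hX
  refine hX.trans ?_
  rw [← Set.ncard_coe_finset]
  have hfin : {n : ℕ | 1 ≤ n ∧ n ≤ X ∧
        (∀ j : ℕ, (j : ℝ) ≤ c * Real.log X / Real.log (Real.log X) ^ 3 →
          Nat.primeCounting (n + j) = Nat.primeCounting n) ∧
        ∀ j : ℕ, (j : ℝ) ≤ c * Real.log X ^ 2 / Real.log (Real.log X) ^ 3 →
          ¬ (Nat.primeCounting (n + j)).Prime}.Finite :=
    (Set.finite_Icc 1 X).subset fun n hn => ⟨hn.1, hn.2.1⟩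
  have hsub : ((Pool.Agent.PG50.good2 X ⌊c * Real.log X / Real.log (Real.log X) ^ 3⌋₊
      ⌊c * Real.log X ^ 2 / Real.log (Real.log X) ^ 3⌋₊ : Finset ℕ) : Set ℕ) ⊆
      {n : ℕ | 1 ≤ n ∧ n ≤ X ∧
        (∀ j : ℕ, (j : ℝ) ≤ c * Real.log X / Real.log (Real.log X) ^ 3 →
          Nat.primeCounting (n + j) = Nat.primeCounting n) ∧
        ∀ j : ℕ, (j : ℝ) ≤ c * Real.log X ^ 2 / Real.log (Real.log X) ^ 3 →
          ¬ (Nat.primeCounting (n + j)).Prime} := by
    intro n hn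
    rw [Finset.mem_coe] at hn
    unfold Pool.Agent.PG50.good2 at hn
    rw [Finset.mem_filter, Finset.mem_Icc] at hn
    exact ⟨hn.1.1, hn.1.2, fun j hj => hn.2.1 j (Nat.le_floor hj),
      fun j hj => hn.2.2 j (Nat.le_floor hj)⟩
  exact_mod_cast Set.ncard_le_ncard hsub hfin

end Pool.Agent.Results.MP_28a32f_nt.LongRuns
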